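import Mathlib
import Pool.Agent.Work.MP_a2a261_an.Final
import Pool.Agent.Work.MP_a2a261_an.Conn

/-!
# MP_a2a261_an: Q1 is false (negated form, with nondegenerate doubly connected domains)

The domains are `Ω = {|z| < 1} ∖ [-21/50, 21/50]` and `Ω* = S ∖ [-3/5, 3/5]`, where
`S = {x + iy : |y| < 1, |x| < w(y)}` for an explicit width function `w` which oscillates on a
doubly logarithmic scale near `y = 0`. Up to scaling, `φ_ε(S)` is a symmetric star-shaped domain
`U_ε`, and its Riemann map sends the slit `[-3/5, 3/5]` onto a symmetric slit `[-τ(ε), τ(ε)]`. The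
invariant `τ` is continuous, at most `5/12` at arbitrarily small scales and at least `43/100` at
arbitrarily small scales. So `τ(ε) = 21/50` for a sequence of scales tending to `0`, and for these
`Ω` is conformally equivalent to `φ_ε(Ω*)`. A conformal map has energy `2 · area`, which is
minimal by the area inequality for homeomorphisms of class `W^{1,2}`.
-/

open Set Filter Topology

namespace Pool.Agent.Results.MP_a2a261_an.FlattenedMinimizers

open Pool.Agent.Work.MP_a2a261_an

/-- No component of the complement of `D` in the Riemann sphere is a single point. -/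
def IsNondegenerate (D : Set ℂ) : Prop :=
  ∀ x ∈ (((↑) : ℂ → OnePoint ℂ) '' D)ᶜ,
    (connectedComponentIn ((((↑) : ℂ → OnePoint ℂ) '' D)ᶜ) x).Nontrivial

/-- There are bounded nondegenerate doubly connected domains `Ω`, `Ωs` and a sequence
`ε j → 0⁺` such that for each `j` there is an energy-minimal homeomorphism of `Ω` onto the
horizontal compression of `Ωs` by the factor `ε j`. -/
theorem result : ∃ Ω Ωs : Set ℂ, Bornology.IsBounded Ω ∧ Bornology.IsBounded Ωs ∧
    IsKConnectedDomain 2 Ω ∧ IsKConnectedDomain 2 Ωs ∧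
    IsNondegenerate Ω ∧ IsNondegenerate Ωs ∧
    ∃ ε : ℕ → ℝ, (∀ j, 0 < ε j) ∧ Tendsto ε atTop (𝓝 0) ∧
      ∀ j, ∃ h : ℂ → ℂ, IsEnergyMinimal Ω (compress (ε j) '' Ωs) h := by
  have hball : StarConvex ℝ 0 (Metric.ball (0 : ℂ) 1) :=
    (convex_ball 0 1).starConvex (Metric.mem_ball_self one_pos)
  have hballne : Metric.ball (0 : ℂ) 1 ≠ univ := by
    intro h
    have h1 : (1 : ℂ) ∈ Metric.ball (0 : ℂ) 1 := by rw [h]; trivial
    rw [mem_ball_zero_iff, norm_one] at h1
    exact lt_irrefl _ h1
  have hslit : slit (21 / 50) ⊆ Metric.ball (0 : ℂ) 1 := by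
    rintro _ ⟨x, hx, rfl⟩
    rw [mem_ball_zero_iff, Complex.norm_real, Real.norm_eq_abs]
    exact lt_of_le_of_lt (abs_le.2 hx) (by norm_num)
  obtain ⟨h1, h2⟩ := isKConnected_diff_slit Metric.isOpen_ball hball hballne
    (a := 21 / 50) (by norm_num) hslit
  obtain ⟨h3, h4⟩ := isKConnected_diff_slit (isOpen_Dm 1) (starConvex_Dm 1) (Dm_ne_univ 1)
    (a := 3 / 5) (by norm_num) (slit_subset_Dm (by norm_num))
  exact ⟨Om, OmStar, Metric.isBounded_ball.subset sdiff_subset,
    isBounded_Dm_one.subset sdiff_subset, h1, h3, h2, h4, exists_seq⟩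

end Pool.Agent.Results.MP_a2a261_an.FlattenedMinimizers
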